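import Mathlib
import Pool.Agent.Run7.h28.BV.UProj
import Pool.Agent.Run7.h28.BV.UNear
import Pool.Agent.Run7.h28.BV.Spec2

/-!
# The discriminant bounds the height of the algebraic points above sparse points

Vojta's conjecture for algebraic points says that, off a proper closed subset, the height of an
algebraic point of bounded degree on a variety of general type is bounded in terms of the discriminant
of its field of definition.  We prove a weak form of this for ALL algebraic points, of all degrees, on
ALL projective varieties `X`, if the image of the point under a finite projection to `ℙ^(n-1)` is a sum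
of `k` `S`-units of the field `L` of definition, near an unramified point at one place of `L`: the
special set `Z` is the union of finitely many UNIRULED subvarieties of `X`, and for each finite set `S`
of primes there is a function `φ` such that for all number fields `L` the points of `X (L) \ Z` of this
kind have height at most `φ (|disc L|)`.  The other coordinates of the points are arbitrary elements
of `L`.  If `X` contains no rational curves, then `Z` is empty.  The result is uniform and holds in
families.
-/

open Height NumberField IsDedekindDomain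

namespace Pool.Agent.Results.MP_9b9442_nt.DiscriminantBoundsHeight

/-- The places of a number field, infinite or finite. -/
abbrev Place (K : Type) [Field K] [NumberField K] : Type :=
  InfinitePlace K ⊕ HeightOneSpectrum (𝓞 K)

/-- The absolute value of a place, as normalised in Mathlib. -/
noncomputable def absv {K : Type} [Field K] [NumberField K] : Place K → AbsoluteValue K ℝ
  | Sum.inl w => w.1
  | Sum.inr v => (FinitePlace.mk v).1

/-- The polynomial `F (x, y_i)` in the coordinates `x_l` and `y_i`. -/
noncomputable def eqn {A : Type} [CommRing A] {n m : ℕ} (F : Polynomial (MvPolynomial (Fin n) A))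
    (i : Fin m) : MvPolynomial (Fin n ⊕ Fin m) A :=
  F.eval₂ (MvPolynomial.rename Sum.inl :
    MvPolynomial (Fin n) A →ₐ[A] MvPolynomial (Fin n ⊕ Fin m) A).toRingHom
    (MvPolynomial.X (Sum.inr i))

/-- The polynomial `F (x, Y)` over `K`; the coefficients in `A` are specialised by `s : A → K`. -/
noncomputable def specialise {A K : Type} [CommRing A] [Field K] {n : ℕ} (s : A →+* K)
    (x : Fin n → K) (F : Polynomial (MvPolynomial (Fin n) A)) : Polynomial K :=
  F.map (MvPolynomial.eval₂Hom s x)

/-- The family over `Spec A` of projective varieties with the ideal `I` is uniruled: over a field `L`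
which is an `A`-algebra there is a nonconstant map `p` from the affine line to the variety, given by
polynomials, such that the point `p (1)` is generic: all forms over `A` which vanish at it lie
in `I`. -/
def Uniruled {A σ : Type} [CommRing A] (I : Ideal (MvPolynomial σ A)) : Prop :=
  ∃ (L : Type) (_ : Field L) (_ : Algebra A L) (p : σ → Polynomial L),
    (∀ F ∈ I, MvPolynomial.aeval p F = 0) ∧
    (∀ G : MvPolynomial σ A, (∃ e, G.IsHomogeneous e) → G ∉ I →
      MvPolynomial.aeval (fun i => (p i).eval 1) G ≠ 0) ∧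
    ∃ i j, p i * Polynomial.C ((p j).eval 1) ≠ p j * Polynomial.C ((p i).eval 1)

section

variable {K : Type} [Field K] [NumberField K]

/-- `x` is a sum of `k` elements of `Γ` with coefficients in `K` of height at most `M`. -/
def IsSparse (Γ : Subgroup Kˣ) (k : ℕ) (M : ℝ) (x : K) : Prop :=
  ∃ (a : Fin k → K) (u : Fin k → Kˣ), (∀ r, mulHeight₁ (a r) ≤ M) ∧ (∀ r, u r ∈ Γ) ∧
    x = ∑ r, a r * (u r : K)

/-- After scaling, the polynomial `F` is `v`-adically close to a separable and split polynomial `E`
of degree `q` with coefficients of height at most `M`: there are `a, z ∈ Γ` of height at most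
`M h ^ B` such that the coefficients of `a F (z Y) - E (Y)` of index at most `q` are at most
`M h ^ (-δ)` at `v`.  See `near_of_close` for the main example. -/
def IsNearSplit (Γ : Subgroup Kˣ) (v : Place K) (B δ M h : ℝ) (q : ℕ) (F : Polynomial K) : Prop :=
  ∃ (a z : Kˣ) (E : Polynomial K), a ∈ Γ ∧ z ∈ Γ ∧ E.natDegree = q ∧ E.Separable ∧ E.Splits ∧
    (∀ j, mulHeight₁ (E.coeff j) ≤ M) ∧ mulHeight₁ (a : K) ≤ M * h ^ B ∧
    mulHeight₁ (z : K) ≤ M * h ^ B ∧
    ∀ j ≤ q, absv v ((a : K) * (z : K) ^ j * F.coeff j - E.coeff j) ≤ M * h ^ (-δ)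

end

lemma absv_eq {K : Type} [Field K] [NumberField K] (v : Place K) :
    absv v = Pool.Agent.W180.OP.av v := by
  cases v with
  | inl w => rfl
  | inr w => rfl

lemma near_iff {K : Type} [Field K] [NumberField K] (Γ : Subgroup Kˣ) (v : Place K)
    (B δ M h : ℝ) (q : ℕ) (F : Polynomial K) :
    IsNearSplit Γ v B δ M h q F ↔ Pool.Agent.Run7.h28.BV.Near Γ v B δ M h q F := by
  unfold IsNearSplit Pool.Agent.Run7.h28.BV.Near
  rw [absv_eq]

/-- The main example of polynomials which are near a split polynomial: if the point `x` is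
`v`-adically close to a point `c` with coordinates of height at most `M` at which `F (c, Y)` has full
degree and is separable and split over `K`, then `F (x, Y)` is near a split polynomial, with `M`
replaced by `(C M) ^ C`, where `C` depends only on `F` and `K`. -/
theorem near_of_close {A : Type} [CommRing A] {n : ℕ} (F : Polynomial (MvPolynomial (Fin n) A))
    (K : Type) [Field K] [NumberField K] : ∃ C : ℝ, 1 ≤ C ∧
      ∀ (Γ : Subgroup Kˣ) (v : Place K) (B δ M h : ℝ) (s : A →+* K) (x c : Fin n → K), 0 ≤ B →
        0 ≤ δ → 1 ≤ M → 1 ≤ h → (∀ j e, mulHeight₁ (s ((F.coeff j).coeff e)) ≤ M) →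
        (∀ l, mulHeight₁ (c l) ≤ M) → (∀ l, absv v (x l - c l) ≤ M * h ^ (-δ)) →
        (specialise s c F).natDegree = F.natDegree → (specialise s c F).Separable →
        (specialise s c F).Splits →
        IsNearSplit Γ v B δ ((C * M) ^ C) h F.natDegree (specialise s x F) := by
  obtain ⟨C, hC, h⟩ := Pool.Agent.Run7.h28.BV.near_of_close F K
  refine ⟨C, hC, fun Γ v B δ M h' s x c h1 h2 h3 h4 h5 h6 h7 h8 h9 h10 => ?_⟩
  rw [near_iff]
  rw [absv_eq] at h7
  exact h Γ v B δ M h' s x c h1 h2 h3 h4 h5 h6 h7 h8 h9 h10

/-- The finite places of `L` above the positive integers in `S`. -/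
def primesAbove (L : Type) [Field L] [NumberField L] (S : Finset ℕ) :
    Set (HeightOneSpectrum (𝓞 L)) :=
  {w | ∃ p ∈ S, p ≠ 0 ∧ ((p : ℕ) : 𝓞 L) ∈ w.asIdeal}

/-- The infinite places of `L` and the finite ones above `S`. -/
def placesAbove (L : Type) [Field L] [NumberField L] (S : Finset ℕ) : Set (Place L) :=
  {v | ∀ w, v = Sum.inr w → w ∈ primesAbove L S}

lemma finite_placesAbove (L : Type) [Field L] [NumberField L] (S : Finset ℕ) :
    (placesAbove L S).Finite := by
  have h1 : placesAbove L S ⊆ Set.range (Sum.inl : InfinitePlace L → Place L) ∪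
      Sum.inr '' primesAbove L S := by
    rintro (w | w) hw
    · exact Or.inl ⟨w, rfl⟩
    · exact Or.inr ⟨w, hw w rfl, rfl⟩
  exact ((Set.finite_range _).union
    ((Pool.Agent.Run7.h28.BV.finite_prAbove L S).image _)).subset h1

/-- Let `A` be a finitely generated `ℚ`-algebra with generators `τ`, `n, m, k` natural numbers, `B` and
`δ > 0` real numbers.

Let `X` be a family over `Spec A` of projective schemes with the homogeneous coordinates
`x_1, …, x_n`, `y_1, …, y_m`, given by forms `G` over `A`, such that each `y_i` satisfies an equation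
`F_i (x, y_i) = 0` on `X`, where `F_i` is monic in `y_i`.  Then there are finitely many closed
subvarieties `Q` of `X`, given by prime ideals generated by forms over `A`, which are UNIRULED, with
the following property.

For every finite set `S` of primes and every `D` there is a constant `C` such that for all number
fields `L ⊆ ℂ` with `|disc L| ≤ D`, all places `v` of `L` which are infinite or above `S`, all
`M ≥ 1`, all homomorphisms `s : A → L` with `H (s (τ_i)) ≤ M`, and all points `P = (x : y)` of
`X_s (L)` for which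
* each `x_l` is a sum of `k` `S`-units of `L` with coefficients in `L` of height at most `M`,
* `H (x_l) ≤ M H (x) ^ B`, where `H (x)` is the height of the point `x` of `ℙ^(n-1)`,
* the polynomials `F_i (x, Y)` are, after scaling by `S`-units, `v`-adically at distance at most
  `M H (x) ^ (-δ)` from separable split polynomials over `L` with coefficients of height at most `M`,
the point `P` lies on one of the subvarieties `Q_s`, or `H (x) ≤ (C M) ^ C`. -/
theorem result {A : Type} [CommRing A] [Algebra ℚ A] {p : ℕ} (τ : Fin p → A)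
    (hτ : Algebra.adjoin ℚ (Set.range τ) = ⊤) (n m g k : ℕ) (B δ : ℝ) (hδ : 0 < δ)
    (G : Fin g → MvPolynomial (Fin n ⊕ Fin m) A) (hG : ∀ j, ∃ e, (G j).IsHomogeneous e)
    (F : Fin m → Polynomial (MvPolynomial (Fin n) A)) (hFm : ∀ i, (F i).Monic)
    (hFG : ∀ i, eqn (F i) i ∈ Ideal.span (Set.range G)) :
    ∃ 𝒬 : Set (Ideal (MvPolynomial (Fin n ⊕ Fin m) A)), 𝒬.Finite ∧
      (∀ Q ∈ 𝒬, Q.IsPrime ∧ Ideal.span (Set.range G) ≤ Q ∧ Uniruled Q ∧
        ∃ (g' : ℕ) (G' : Fin g' → MvPolynomial (Fin n ⊕ Fin m) A),
          (∀ j, ∃ e, (G' j).IsHomogeneous e) ∧ Q = Ideal.span (Set.range G')) ∧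
      ∀ (S : Finset ℕ) (D : ℕ), ∃ C : ℝ, 1 ≤ C ∧
      ∀ (L : IntermediateField ℚ ℂ) [NumberField L], |discr L| ≤ D → ∀ v ∈ placesAbove L S,
      ∀ (M : ℝ) (s : A →+* L) (x : Fin n → L) (y : Fin m → L), 1 ≤ M →
        (∀ i, mulHeight₁ (s (τ i)) ≤ M) →
        x ≠ 0 → (∀ j, MvPolynomial.eval₂ s (Sum.elim x y) (G j) = 0) →
        (∀ l, IsSparse ((primesAbove L S).unit L) k M (x l)) →
        (∀ l, mulHeight₁ (x l) ≤ M * mulHeight x ^ B) →
        (∀ i, IsNearSplit ((primesAbove L S).unit L) v B δ M (mulHeight x) (F i).natDegree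
          (specialise s x (F i))) →
        (∃ Q ∈ 𝒬, ∀ P ∈ Q, MvPolynomial.eval₂ s (Sum.elim x y) P = 0) ∨
          mulHeight x ≤ (C * M) ^ C := by
  obtain ⟨𝒬, h1, h2, h⟩ := Pool.Agent.Run7.h28.BV.specialP τ hτ n m k B δ hδ
    (Ideal.span (Set.range G)) ⟨g, G, hG, rfl⟩ F hFm hFG
  refine ⟨𝒬, h1, fun Q hQ => ⟨(h2 Q hQ).2.1, (h2 Q hQ).2.2.1, (h2 Q hQ).2.2.2, (h2 Q hQ).1⟩,
    fun S D => ?_⟩
  exact Pool.Agent.Run7.h28.BV.uniform_disc D (fun L _ => Place L)
    (fun L _ => placesAbove L S) (fun L _ => finite_placesAbove L S)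
    (fun L _ v C => ∀ (M : ℝ) (s : A →+* L) (x : Fin n → L) (y : Fin m → L), 1 ≤ M →
        (∀ i, mulHeight₁ (s (τ i)) ≤ M) →
        x ≠ 0 → (∀ j, MvPolynomial.eval₂ s (Sum.elim x y) (G j) = 0) →
        (∀ l, IsSparse ((primesAbove L S).unit L) k M (x l)) →
        (∀ l, mulHeight₁ (x l) ≤ M * mulHeight x ^ B) →
        (∀ i, IsNearSplit ((primesAbove L S).unit L) v B δ M (mulHeight x) (F i).natDegree
          (specialise s x (F i))) →
        (∃ Q ∈ 𝒬, ∀ P ∈ Q, MvPolynomial.eval₂ s (Sum.elim x y) P = 0) ∨
          mulHeight x ≤ (C * M) ^ C)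
    (fun L _ v C C' h1 h2 h3 h4 M s x y a1 a2 a4 a5 a6 a7 a8 =>
      (h4 M s x y a1 a2 a4 a5 a6 a7 a8).imp_right
        (Pool.Agent.Run7.h28.BV.bound_mono h1 h2 h3 a1))
    (fun L _ v _ => by
      obtain ⟨C, hC, h⟩ := h L ((primesAbove L S).unit L)
        (Pool.Agent.H39R3.Tor.sunit_fg L _ (Pool.Agent.Run7.h28.BV.finite_prAbove L S)) v
      refine ⟨C, by linarith, fun M s x y h1 h2 h4 h5 h6 h7 h8 =>
        h M s x y h1 h2 h4 ?_ h6 h7 fun i => (near_iff _ _ _ _ _ _ _ _).1 (h8 i)⟩
      intro P hP
      have h9 : Ideal.span (Set.range G) ≤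
          RingHom.ker (MvPolynomial.eval₂Hom s (Sum.elim x y)) := by
        rw [Ideal.span_le]
        rintro _ ⟨j, rfl⟩
        exact h5 j
      exact h9 hP)

/-- If no fibre of the family contains a rational curve, then the special set is empty: a uniruled
prime ideal containing the ideal of `X` gives a nonconstant map from the line to the family `X` over a
field. -/
theorem rational_curve_of_uniruled {A σ : Type} [CommRing A] {I Q : Ideal (MvPolynomial σ A)}
    (hIQ : I ≤ Q) (hQ : Uniruled Q) : ∃ (L : Type) (_ : Field L) (_ : Algebra A L)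
      (p : σ → Polynomial L), (∀ F ∈ I, MvPolynomial.aeval p F = 0) ∧
      ∃ i j, p i * Polynomial.C ((p j).eval 1) ≠ p j * Polynomial.C ((p i).eval 1) := by
  obtain ⟨L, i1, i2, p, h1, -, h3⟩ := hQ
  exact ⟨L, i1, i2, p, fun F hF => h1 F (hIQ hF), h3⟩

end Pool.Agent.Results.MP_9b9442_nt.DiscriminantBoundsHeight
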