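import Pool.Agent.Run7.h128.BD.FinI

/-!
# Points of bounded degree: the height is bounded by the discriminant and the distance of the
coordinates from the units

Let `k` be a number field and `𝒳 ⊂ 𝔸^q × ℙ^n` an integral closed subvariety over `k`, considered as a
family of projective varieties `𝒳_t` (`q = 0`: one projective variety `X`), given by polynomials
`F_1, …, F_m` in `t = (t_1, …, t_q)` and in `n + 1` homogeneous coordinates, homogeneous in the latter,
which generate a prime ideal. `fib t F` is the form `F(t; ·)`. The generic fibre of the family is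
supposed not to be uniruled (`FibreUniruled`); for instance, it is of general type.

All heights are relative to `k`, as in the problem: `ht k x` is the height of the point with the
coordinates `x`, `ht₁ k a` the height of a number, and `logDisc k L` is
`d_k(L) = log |disc L| / [L : k] - log |disc k|`. The points `x` considered are the algebraic points
of the fibres, over number fields `L` of arbitrary degree. They are written in terms of a number field
`K` with `k ⊆ K ⊆ L` and with a finite set `S` of finite places, for example `K = k`: every coordinate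
is a sum of `s` products

  `x_a = ∑_j λ_(j, a) u_(j, a)`, `λ_(j, a) ∈ L`, `u_(j, a) ∈ K`,

and `N_S(u) = outside S u = ∑_{w ∉ S} ∑_{u_(j,a) ≠ 0} log (max_i |u_i|_w / |u_(j,a)|_w)` measures how
far the numbers `u_(j, a)` are from being proportional to `S`-units.

THEOREM. For every `s` there is ONE proper closed subset `𝒵 = {H = 0}` of `𝒳`, over `k`, such that for
ALL number fields `K ⊇ k` and ALL finite sets `S`:

(1) for a constant `C`, all number fields `L ⊇ K`, OF ANY DEGREE, all points `x ∉ 𝒵` of the fibres
over `L` and all `λ` and `u` as above satisfy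

  `h(x) ≤ C (1 + h(t) + h(λ) + N_S(u))`,

where `h(t)` and `h(λ)` are the sums of the heights of the `t_i` and of the `λ_(j, a)`;

(2) for every degree `d` there is a constant `C` such that every number field `L ⊇ K` of degree at most
`d` over `k` has a generator `θ`, an algebraic integer with `L = ℚ(θ)`, such that for all points
`x ∉ 𝒵` of the fibres over `L`, written as `x_a = ∑_j θ^(g(j, a)) u_(j, a)` with exponents `< d`,

  `h(x) ≤ C (1 + h(t) + d_k(L) + N_S(u))`.

As the powers `θ^i`, `i < [L : K] ≤ d`, are a basis of `L` over `K`, (2) with `s = d` and `g(j, a) = j`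
applies to all algebraic points of degree at most `d`, with the coordinates `u_(j, a)` of the `x_a`
with respect to this basis. For the points for which `N_S(u) ≤ ε h(x)`, `ε` small, for instance if the
`u_(j, a)` are `S`-units or `0`, it yields Vojta's inequality up to a constant factor,

  `h(x) ≤ C' (1 + h(t) + d_k(L))`.

Proof. (1) If it fails, take a sequence of counterexamples, an ultrafilter and the ring of the
relations which are satisfied. The relation `F(x) = 0` is a relation between the monomials in the `u`
with algebraic coefficients of arbitrary degree; expressing these in terms of a maximal linearly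
independent subset over `K` one obtains relations over `K`, and their coefficients have small
heights: they are quotients of determinants of conjugates (`BD/Desc.lean`), so that nothing depends on
the degree. By the subspace theorem with moving coefficients (`Pool/Agent/Run7/h128/AU`) and the
relations between the coefficients again, a nonconstant rational curve
`T ↦ (∑_j λ_(j, a) u_(j, a) T^(l(j, a)))_a` passes through `x` in its fibre. These curves, with
`s (n + 1)` terms, lie in one hypersurface. (2) `θ` is given by Minkowski's theorem.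
-/

set_option autoImplicit false

namespace Pool.Agent.Results.MP_9b9442_nt.HeightByDiscriminant

open NumberField MvPolynomial Module
open Run7.h128.BD (ht ht₁ logDisc ht₁_nonneg exists_genK finI)
open Run7.h128.FG (fib FibreUniruled)
open Run7.h128.AU (outside outside_nonneg)
open scoped IntermediateField

theorem result (k : Type) [Field k] [NumberField k] (q n m : ℕ) (e : Fin m → ℕ)
    (F : Fin m → MvPolynomial (Fin (n + 1)) (MvPolynomial (Fin q) k))
    (hF : ∀ i, (F i).IsHomogeneous (e i)) (hprime : (Ideal.span (Set.range F)).IsPrime)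
    (hnu : ¬ FibreUniruled (Ideal.span (Set.range F))) (s : ℕ) :
    ∃ H : MvPolynomial (Fin (n + 1)) (MvPolynomial (Fin q) k), (∃ d, H.IsHomogeneous d) ∧
      H ∉ Ideal.span (Set.range F) ∧
      ∀ (K : Type) [Field K] [NumberField K] [Algebra k K] (S : Finset (FinitePlace K)),
        -- (1) number fields `L` of arbitrary degree
        (∃ C : ℝ, ∀ (L : Type) [Field L] [NumberField L] [Algebra k L] [Algebra K L]
          [IsScalarTower k K L] (t : Fin q → L) (lam : Fin s → Fin (n + 1) → L)
          (u : Fin s → Fin (n + 1) → K) (x : Fin (n + 1) → L),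
          (∀ a, x a = ∑ j, lam j a * algebraMap K L (u j a)) → x ≠ 0 →
          (∀ i, eval x (fib t (F i)) = 0) → eval x (fib t H) ≠ 0 →
          ht k x ≤ C * (1 + ∑ i, ht₁ k (t i) + ∑ j, ∑ a, ht₁ k (lam j a) +
            outside S fun p : Fin s × Fin (n + 1) => u p.1 p.2)) ∧
        -- (2) number fields `L` of bounded degree
        ∀ d : ℕ, ∃ C : ℝ, ∀ (L : Type) [Field L] [NumberField L] [Algebra k L] [Algebra K L]
          [IsScalarTower k K L], finrank k L ≤ d → ∃ θ : L, IsIntegral ℤ θ ∧ ℚ⟮θ⟯ = ⊤ ∧
            ∀ (t : Fin q → L) (g : Fin s → Fin (n + 1) → ℕ) (u : Fin s → Fin (n + 1) → K)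
              (x : Fin (n + 1) → L), (∀ j a, g j a < d) →
              (∀ a, x a = ∑ j, θ ^ g j a * algebraMap K L (u j a)) → x ≠ 0 →
              (∀ i, eval x (fib t (F i)) = 0) → eval x (fib t H) ≠ 0 →
              ht k x ≤ C * (1 + ∑ i, ht₁ k (t i) + logDisc k L +
                outside S fun p : Fin s × Fin (n + 1) => u p.1 p.2) := by
  obtain ⟨H, hH1, hH2, hH3⟩ := finI e F hF hprime hnu s
  refine ⟨H, hH1, hH2, fun K _ _ _ S => ?_⟩
  obtain ⟨C, hC0, hC⟩ := hH3 K S
  refine ⟨⟨C, hC⟩, fun d => ?_⟩
  obtain ⟨C', hC0', hC'⟩ := exists_genK k d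
  set M : ℝ := s * ((n + 1) * (d * C')) with hM
  have hM0 : 0 ≤ M := by positivity
  refine ⟨C * (1 + M), fun L _ _ _ _ _ hL => ?_⟩
  obtain ⟨θ, h1, h2, h3⟩ := hC' L hL
  refine ⟨θ, h1, h2, fun t g u x hg hx hx0 h0 hHx => ?_⟩
  have h4 := hC L t (fun j a => θ ^ g j a) u x hx hx0 h0 hHx
  have hd := Run7.h128.BD.logDisc_nonneg k L
  have hθ : ∀ i, i < d → ht₁ k (θ ^ i) ≤ d * (C' * (1 + logDisc k L)) := by
    intro i hi
    have h5 : ht₁ k (θ ^ i) = i * ht₁ k θ := by
      unfold ht₁
      rw [Height.logHeight₁_pow]
      ring
    rw [h5]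
    have h6 : (i : ℝ) ≤ d := by exact_mod_cast hi.le
    exact mul_le_mul h6 h3 (ht₁_nonneg k θ) (Nat.cast_nonneg d)
  have h5 : ∑ j : Fin s, ∑ a : Fin (n + 1), ht₁ k (θ ^ g j a) ≤ M * (1 + logDisc k L) := by
    refine (Finset.sum_le_sum fun j _ => Finset.sum_le_sum fun a _ => hθ _ (hg j a)).trans
      (le_of_eq ?_)
    rw [Finset.sum_const, Finset.sum_const, Finset.card_univ, Finset.card_univ, Fintype.card_fin,
      Fintype.card_fin, nsmul_eq_mul, nsmul_eq_mul, hM]
    push_cast
    ring
  have h6 : 0 ≤ ∑ i, ht₁ k (t i) := Finset.sum_nonneg fun i _ => ht₁_nonneg k (t i)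
  have h7 := outside_nonneg S fun p : Fin s × Fin (n + 1) => u p.1 p.2
  refine h4.trans ?_
  rw [mul_assoc]
  refine mul_le_mul_of_nonneg_left ?_ hC0
  nlinarith [mul_nonneg hM0 h6, mul_nonneg hM0 h7]

end Pool.Agent.Results.MP_9b9442_nt.HeightByDiscriminant
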