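import Pool.Agent.Results.MP_9b9442_nt.NoPointsOfBoundedDegree
import Pool.Agent.Run7.h316.EQ.BD
import Pool.Agent.Run7.h316.EQ.Typ

/-!
# Points of degree at most `B` on complete intersections over a semiabelian variety whose coefficients are
# primes, or run through equidistributed, metric or random sequences

The setting is the one of the file `NoPointsOfBoundedDegree` (boxes of coefficients), whose definitions are
used. `K` is a number field, `G = E_1 × ⋯ × E_r × G_m^s`, `r + s ≥ 1`, where `E_i` is an elliptic curve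
`y² = x³ + a_i x` or `y² = x³ + b_i` (of arbitrary rank), `𝒯 ⊂ G × ℙ^(m-1)` is an arbitrary closed subscheme
over `𝓞 K` whose complex fibres over `G` have dimension at most `κ`. A linear system `Λ = (Λ_x)` on `𝒯`
separates `k₀` points if the vectors `(Λ_x(P))_x` at any `l ≤ k₀` different complex points `P` of `𝒯` are
linearly independent. For `c ∈ (𝓞 K)^n ≅ ℤ^(n [K:ℚ])` let
`X_c = 𝒯 ∩ {Φ_j + ∑_x c_(j,x) Λ_(j,x) = 0, j = 1, …, h}`. A point of `𝒯` over a number field `L ⊃ K` is
`S`-integral if its torus coordinates are `S`-units of `L` (for `s = 0`: no condition).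

`Usually … Ω S c`: the `c w`, `w ∈ Ω`, are vectors of coefficients, the `S M ⊂ Ω` finite sets, and for ALL
numbers `S₀ ≥ 1` the proportion of the `w ∈ S M` for which `X_(c w)` has an `S₀`-integral point over some
extension of `K` of degree at most `B` tends to zero, `M → ∞`.

**Theorem.** Let `B ≥ 1`. There is a number `k₀`, which depends only on `𝒯` and `B`, such that for all
`h ≥ 1` with `(r + s + κ) B ≤ (r + s) + h B` (that is `B dim X_c ≤ dim G` for the expected dimension
`r + s + κ - h` of `X_c`), all linear systems `Λ_1, …, Λ_h` on `𝒯` which separate `k₀` points and all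
`Φ_1, …, Φ_h` of the same degrees:

(A) `Usually` is a robust property (`Pool.Agent.Run7.h316.EQ.Robust`):

(1) All dominated families have it: there are `C`, `A`, `M` such that for all squarefree `q` prime to `M` at
most the proportion `C (q / φ(q)) ^ A q ^ (-n [K:ℚ]) + o(1)` of the `c w`, `w ∈ S M`, is in a given class
modulo `q`. (All equidistributed sequences, along arbitrary sets of times, are dominated, and all their
subfamilies of positive lower density.)
(2) - (4) Metric sequences: `(⌊f_{i,l}(x_i)⌋)_i` for Koksma sequences `f_{i,0}, f_{i,1}, …`,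
`(⌊a_{i,l} x_i⌋)_i` for arbitrary sequences of different integers (or of real numbers with a gap) and
`(⌊ξ_i x_i ^ (k_l)⌋)_i`, for almost all `x`.
(5) Random orbits of groups of integral matrices of determinant one which generate `SL(ℤ/q)` for all `q`
prime to some number (all Zariski dense groups, possibly of infinite index).
(6) Generalised polynomials `(⌊∑_t a_{i,t} l ^ t⌋)_i` at the integers and at the primes `l` of `(M, 2M]`.
(7) PRIME COEFFICIENTS: for all `S` the proportion of the vectors `c` of prime numbers `≤ M` for which `X_c`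
has an `S`-integral point of degree at most `B` over `K` tends to zero.

(B) A linear system which contains all the monomials `V^μ u^x T^α` with `μ` of a given multidegree `d`, `α`
of degree `e`, `x_0 ≤ x ≤ x_0 + k₀ - 1`, separates `k₀` points if `e` and all the `d_i` are at least
`k₀ - 1` (this part is from the file `NoPointsOfBoundedDegree`).

For example, for `r = 2`, `s = κ = 0`, `h = 1`, `B = 2`: 100 % of the curves of a large bidegree on
`E_1 × E_2` whose coefficients are prime numbers have no points over any quadratic extension of `K`.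

Proof. The Mordell-Weil sieve of `NoPointsOfBoundedDegree` (helper89, with the contributions listed there):
for a product `q` of good primes `p` such that `2(p + 1)` and `p² - 1` divide `M` the traces of the points of
degree at most `B` fall in at most `M ^ R` classes, and each of them is compatible with at most the
proportion `(1 - δ) ^ (number of the p)` of the coefficient vectors modulo `q`; the number of the `p` can be
much larger than `log M`. So the exceptional set is strongly null (`Pool.Agent.Run7.h316.EQ.proBD`): for all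
`D`, `A` and `ε > 0` there is a squarefree number `q` prime to `D` such that at most the proportion
`ε (φ(q) / q) ^ A` of the classes modulo `q` contain elements of it. Metric sequences: `Pool.Agent.N24.KM`
(helpers 24, 344, 617, 199, 764, 432, 286); random orbits: `Pool.Agent.N24.RW` (helpers 24, 123, 195, 300,
543, 765); generalised polynomials: `Pool.Agent.N666.TM` (helper666); `Pool.Agent.N918.EQ` (helper918);
primes: the prime number theorem for arithmetic progressions (helper923).
-/

set_option autoImplicit false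

namespace Pool.Agent.Results.MP_9b9442_nt.RobustIntersections

open MvPolynomial NumberField MeasureTheory Filter
open Pool.Agent.Results.MP_9b9442_nt.NoPointsOfBoundedDegree
open Pool.Agent.Run7.h316.EQ (StrongNull Rare Robust)

/-- For all `S₀ ≥ 1` the proportion of the `w` in `S M` for which `X_(c w)` has an `S₀`-integral point of
degree at most `B` over `K` tends to zero, `M → ∞`. -/
def Usually {K : Type} [Field K] [NumberField K] {N h r s m q : ℕ}
    (ω : Module.Basis (Fin N) ℤ (𝓞 K)) (a b : Fin r → ℤ) (B : ℕ)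
    (G : Fin q → Pol (𝓞 K) r s m) (Φ : Fin h → Pol (𝓞 K) r s m) {ι : Fin h → Type}
    [∀ j, Fintype (ι j)] (Λ : (j : Fin h) → ι j → Pol (𝓞 K) r s m)
    (Ω : Type) (S : ℕ → Finset Ω) (c : Ω → (Σ j, ι j) × Fin N → ℤ) : Prop :=
  ∀ S₀ : ℕ, 1 ≤ S₀ → ∀ ε : ℝ, 0 < ε → ∃ M₀ : ℕ, ∀ M : ℕ, M₀ ≤ M →
    (({w : Ω | w ∈ S M ∧ c w ∈ HasPoint ω a b B S₀ G Φ Λ}.ncard : ℕ) : ℝ) ≤ ε * (S M).card

theorem result (K : Type) [Field K] [NumberField K] (N : ℕ) (ω : Module.Basis (Fin N) ℤ (𝓞 K))
    (r s m q κ : ℕ) (hrs : 1 ≤ r + s) (a b : Fin r → ℤ)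
    (hab : ∀ i, a i * b i = 0 ∧ (a i ≠ 0 ∨ b i ≠ 0))
    (G : Fin q → Pol (𝓞 K) r s m) (dG : Fin q → Fin r → ℕ) (eG : Fin q → ℕ)
    (hG : ∀ l, Homog (G l) (dG l) (eG l)) (σ : K →+* ℂ) (hdim : DimLE σ a b G κ)
    (B : ℕ) (hB : 1 ≤ B) :
    ∃ k₀ : ℕ,
      (∀ h : ℕ, 1 ≤ h → (r + s + κ) * B ≤ (r + s) + h * B →
        ∀ (Φ : Fin h → Pol (𝓞 K) r s m) (ι : Fin h → Type) [∀ j, Fintype (ι j)]
        [∀ j, DecidableEq (ι j)] [∀ j, Nonempty (ι j)]
        (Λ : (j : Fin h) → ι j → Pol (𝓞 K) r s m) (d : Fin h → Fin r → ℕ) (e : Fin h → ℕ),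
        (∀ j, Homog (Φ j) (d j) (e j)) → (∀ j x, Homog (Λ j x) (d j) (e j)) →
        (∀ j, Sep σ a b G (Λ j) k₀) →
        -- (A)
        Robust (Usually ω a b B G Φ Λ)) ∧
      -- (B)
      ∀ (ι : Type) (Λ : ι → Pol (𝓞 K) r s m) (d : Fin r → ℕ) (e : ℕ) (x₀ : Fin s → ℕ),
        (∀ i, k₀ ≤ d i + 1) → k₀ ≤ e + 1 →
        (∀ (μ : Fin r → Fin 3 → ℕ) (x : Fin s → ℕ) (α : Fin m → ℕ), (∀ i, ∑ j, μ i j = d i) →
          (∀ l, x₀ l ≤ x l ∧ x l + 1 ≤ x₀ l + k₀) → ∑ i, α i = e → ∃ y, Λ y = mon μ x α) →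
        Sep σ a b G Λ k₀ := by
  obtain ⟨k₀, h1, h2⟩ := Pool.Agent.Run7.h316.EQ.proBD K r s m q κ a b hab G dG eG
    (fun l => (hG l).1) (fun l => (hG l).2) σ hdim B hB hrs
  have hsep : ∀ {ι : Type} (Λ : ι → Pol (𝓞 K) r s m),
      Sep σ a b G Λ k₀ ↔ Pool.Agent.N89.BD.SepAll (Pool.Agent.W659.SA.toC σ) a b G Λ k₀ := by
    intro ι Λ
    constructor
    · intro h l hl V u T hB hF hne
      exact h l hl V u T (fun i => ⟨hB i, hF i⟩) (fun i j hij hc =>
        hne i j hij ⟨⟨hc.1, hc.2.1⟩, hc.2.2⟩)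
    · intro h l hl V u T hT hne
      exact h l hl V u T (fun i => (hT i).1) (fun i => (hT i).2) (fun i j hij hc =>
        hne i j hij ⟨hc.1.1, hc.1.2, hc.2⟩)
  refine ⟨k₀, ?_, fun ι Λ d e x₀ hd he h => (hsep Λ).2 (h2 ι Λ d e x₀ hd he h)⟩
  intro h hh hyp Φ ι _ _ _ Λ d e hΦ hΛ hs
  have h3 := h1 h hh hyp Φ ι Λ d e (fun j => (hΦ j).1) (fun j => (hΦ j).2)
    (fun j x => (hΛ j x).1) (fun j x => (hΛ j x).2) (fun j => (hsep (Λ j)).1 (hs j))
  have key : ∀ S : ℕ,
      HasPoint ω a b B S G Φ Λ = Pool.Agent.N89.BD.BadB ω a b B S G Φ Λ := by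
    intro S
    ext c
    constructor
    · rintro ⟨L, i1, i2, i3, hL, V, u, T, hV, hu, hT, hc⟩
      refine ⟨L, i1, i2, i3, hL, V, fun l => Units.mk0 (u l) (hV.2 l), T, hV.1, fun l => ?_, hT, hc⟩
      obtain ⟨n, hn1, hn2⟩ := hu l
      exact ⟨n, hn1, by simpa using hn2⟩
    · rintro ⟨L, i1, i2, i3, hL, V, u, T, hV, hu, hT, hc⟩
      refine ⟨L, i1, i2, i3, hL, V, fun l => ((u l : Lˣ) : L), T, ⟨hV, fun l => (u l).ne_zero⟩,
        fun l => ?_, hT, hc⟩
      obtain ⟨n, hn1, hn2⟩ := hu l
      exact ⟨n, hn1, by simpa using hn2⟩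
  have hnull : ∀ S : ℕ, 1 ≤ S → StrongNull (HasPoint ω a b B S G Φ Λ) := by
    intro S hS
    rw [key]
    exact h3 S hS N ω
  have hN : Nonempty (Fin N) := ω.index_nonempty
  have hne : Nonempty ((Σ j, ι j) × Fin N) := by
    refine ⟨⟨⟨⟨0, hh⟩, Classical.arbitrary _⟩, Classical.arbitrary _⟩⟩
  refine Pool.Agent.Run7.h316.EQ.robust_of _ ?_
  intro X _ ν P Ω S c hR
  have h4 : ∀ᵐ x ∂ν, ∀ S₀ : ℕ, 1 ≤ S₀ → P x → Rare S (c x) (HasPoint ω a b B S₀ G Φ Λ) := by
    rw [ae_all_iff]
    intro S₀
    by_cases hS : 1 ≤ S₀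
    · filter_upwards [hR _ (hnull S₀ hS)] with x hx _
      exact hx
    · exact Eventually.of_forall fun x h => absurd h hS
  filter_upwards [h4] with x hx hP S₀ hS₀
  exact hx S₀ hS₀ hP

end Pool.Agent.Results.MP_9b9442_nt.RobustIntersections
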