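import Mathlib
import Pool.Agent.Run7.h720.WRes

set_option autoImplicit false

/-!
# Vojta's inequality at the sparse points of the members of families of smooth projective varieties
over number fields, with a divisor at each place

`K` is a number field, `(X_c)` a family of smooth projective varieties of dimension `n` in
`ℙ^(n + s)`, parametrised by the points `c = (c_1, …, c_p)` of the affine variety given by the
equations `E i (c) = 0` and `N i (c) ≠ 0`: `X_c` has the equations `(G k)_c = 0`, forms whose
coefficients are polynomials in `c`. For each place `v` in a finite set `T` of places there is a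
family `D_v = D_{v, 1} + ⋯ + D_{v, q}` of divisors of `X_c` with strict normal crossings, `D_{v, i}`
with the equations `(F v i j)_c = 0`, `j < w`, forms of degree `d v i`.
-/

namespace Pool.Agent.Results.MP_9b9442_nt.SparsePointsOfFamilies

open MvPolynomial NumberField IsDedekindDomain Height
open Pool.Agent.K1H83.VN

section field
variable {K : Type} [Field K]

/-! ### Families -/

variable (K) in
/-- A family of polynomials in `m` variables (coordinates), the coefficients of which are polynomials
in the `p` parameters. -/
abbrev Family (p m : ℕ) : Type := MvPolynomial (Fin m) (MvPolynomial (Fin p) K)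

/-- The member `H_c` of the family `H` with the parameters `c` (in an extension field of `K`). -/
noncomputable def member {L : Type} [Field L] [Algebra K L] {p m : ℕ} (c : Fin p → L)
    (H : Family K p m) : MvPolynomial (Fin m) L :=
  map (aeval c : MvPolynomial (Fin p) K →ₐ[K] L).toRingHom H

/-- `c` is a point of the base: the `E i` vanish at `c` and the `N i` do not. -/
def InBase {L : Type} [Field L] [Algebra K L] {p a b : ℕ} (E : Fin a → MvPolynomial (Fin p) K)
    (N : Fin b → MvPolynomial (Fin p) K) (c : Fin p → L) : Prop :=
  (∀ i, aeval c (E i) = 0) ∧ ∀ i, aeval c (N i) ≠ 0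

/-- All members of the family are smooth of codimension `s` and the divisors on them have strict
normal crossings: over every extension field, at every point `z` of every member `X_c`, for suitable
`s` equations of `X_c` and one equation of each component of `D_c` through `z`, all gradients at `z`
are linearly independent. -/
def SmoothFamily {p m g q w a b : ℕ} (s : ℕ) (E : Fin a → MvPolynomial (Fin p) K)
    (N : Fin b → MvPolynomial (Fin p) K) (G : Fin g → Family K p m)
    (F : Fin q → Fin w → Family K p m) : Prop :=
  ∀ (L : Type) [Field L] [Algebra K L] (c : Fin p → L) (z : Fin m → L), InBase E N c → z ≠ 0 →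
    (∀ k, aeval z (member c (G k)) = 0) →
    ∃ (i : Fin s → Fin g) (j : Fin q → Fin w), LinearIndependent L
      (Sum.elim (fun k => fun y => aeval z (pderiv y (member c (G (i k)))))
        (fun k : {k : Fin q // ∀ j, aeval z (member c (F k j)) = 0} =>
          fun y => aeval z (pderiv y (member c (F k.1 (j k.1))))))

/-- The exceptional set in `X_c` given by a finite list `P` of families of forms in `n + 1` variables:
`x` belongs to it if for every choice `J` of `n + 1` coordinates one of those forms `(P i)_c` that are
not zero vanishes at the coordinates `x_J`. It is closed, and it contains no component of `X_c`: on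
the cone over a variety of dimension `n`, some `n + 1` coordinates are algebraically independent. -/
def Exceptional {p m n l : ℕ} (P : Fin l → Family K p (n + 1)) (c : Fin p → K) (x : Fin m → K) :
    Prop :=
  ∀ J : Fin (n + 1) → Fin m, ∃ i, member c (P i) ≠ 0 ∧
    aeval (fun k => x (J k)) (member c (P i)) = 0

/-- The columns of `A` are a basis of the tangent space at `x` of the affine cone over the variety
with the equations `G k = 0` (the vectors orthogonal to all gradients of equations), the variety being
smooth of dimension `n` at `x`. -/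
def IsTangentBasis {m n g : ℕ} (G : Fin g → MvPolynomial (Fin m) K) (x : Fin m → K)
    (A : Matrix (Fin m) (Fin (n + 1)) K) : Prop :=
  LinearIndependent K (fun (c : Fin (n + 1)) (j : Fin m) => A j c) ∧
    ∀ k c, ∑ j, aeval x (pderiv j (G k)) * A j c = 0

/-- The local height `λ_{Z,v}(x)` at the absolute value `v` of the subvariety `Z` with the equations
`F j = 0`, forms of degree `d`. -/
noncomputable def localHeight {m w : ℕ} (F : Fin w → MvPolynomial (Fin m) K) (d : ℕ)
    (x : Fin m → K) (v : AbsoluteValue K ℝ) : ℝ :=
  Real.log ((⨆ i, v (x i)) ^ d / ⨆ j, v (aeval x (F j)))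

variable [NumberField K]

/-! ### Places and heights, relative to `K` -/

variable (K) in
/-- The places of `K`, infinite and finite. -/
abbrev Place : Type := InfinitePlace K ⊕ HeightOneSpectrum (𝓞 K)

/-- The absolute value of a place. (Mathlib's absolute value of a finite place is normalised so that
the product formula holds without exponents.) -/
noncomputable def absVal : Place K → AbsoluteValue K ℝ
  | Sum.inl v => v.1
  | Sum.inr v => (FinitePlace.mk v).1

/-- The multiplicity of a place: `2` for a complex place, `1` for all others. -/
noncomputable def mult : Place K → ℕ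
  | Sum.inl v => v.mult
  | Sum.inr _ => 1

/-- The proximity function: the sum over the places `v` in `T` of the local heights `λ_{D_v,v}(x)` of
`D_v = D_{v, 1} + ⋯ + D_{v, q}` at `v`. -/
noncomputable def proximity {m q w : ℕ} (T : Finset (Place K))
    (F : Place K → Fin q → Fin w → MvPolynomial (Fin m) K) (d : Place K → Fin q → ℕ)
    (x : Fin m → K) : ℝ :=
  ∑ v ∈ T, mult v * ∑ i, localHeight (F v i) (d v i) x (absVal v)

/-- The height `h_K(x)` for the canonical class `K` of `X`. The Gauss map `γ` sends a point of `X` to
its embedded tangent space, `γ^* O(1) = K + (n + 1) H` for the hyperplane class `H`, and `h_K(x)` is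
the height of `γ(x)` (whose Plücker coordinates are the maximal minors of `A`) minus
`(n + 1) h(x)`. -/
noncomputable def canonicalHeight {m n : ℕ} (x : Fin m → K) (A : Matrix (Fin m) (Fin (n + 1)) K) :
    ℝ :=
  logHeight (fun J : Fin (n + 1) → Fin m => (A.submatrix J id).det) - (n + 1) * logHeight x

/-- The vector `x` is a sum of `r` terms `γ • c` with `γ` in `Γ` and `c` a vector with entries of
(multiplicative, relative) height at most `R`. -/
def IsShortPoint {m : ℕ} (Γ : Subgroup Kˣ) (r : ℕ) (R : ℝ) (x : Fin m → K) : Prop :=
  ∃ (c : Fin r → Fin m → K) (γ : Fin r → Kˣ), (∀ j, γ j ∈ Γ) ∧ (∀ j i, mulHeight₁ (c j i) ≤ R) ∧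
    ∀ i, x i = ∑ j, c j i * (γ j : K)

/-! ### Auxiliary lemma -/

theorem proximity_eq {m q w : ℕ} (T : Finset (Place K))
    (F : Place K → Fin q → Fin w → MvPolynomial (Fin m) K) (d : Place K → Fin q → ℕ)
    (x : Fin m → K) (hx : x ≠ 0) (hF : ∀ v ∈ T, ∀ i, ∃ j, aeval x (F v i j) ≠ 0) :
    proximity T F d x = ∑ v ∈ T, Pool.Agent.W180.OP.wt v *
      Pool.Agent.Run7.h720.lc v x (fun i j => aeval x (F v i j)) (d v) := by
  unfold proximity
  refine Finset.sum_congr rfl fun v hv => ?_
  have h1 : absVal v = Pool.Agent.W180.OP.av v := by
    rcases v with v | v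
    · rfl
    · rfl
  have h2 : (mult v : ℝ) = Pool.Agent.W180.OP.wt v := by
    rcases v with v | v
    · rfl
    · exact Nat.cast_one
  rw [h1, h2]
  unfold Pool.Agent.Run7.h720.lc
  congr 1
  refine Finset.sum_congr rfl fun i _ => ?_
  obtain ⟨j, hj⟩ := hF v hv i
  show Real.log (nm (Pool.Agent.W180.OP.av v) x ^ d v i /
    nm (Pool.Agent.W180.OP.av v) fun j => aeval x (F v i j)) = _
  rw [Real.log_div (pow_pos (nm_pos _ hx) _).ne' (nm_pos _ (ne_of_coord (i := j) hj)).ne',
    Real.log_pow]

end field

/-- **Main theorem.** Let `K` be a number field, `(X_c)` a family of smooth projective varieties of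
dimension `n ≥ 1`, `T` a finite set of places of `K` containing the infinite ones, and for each `v`
in `T` let `(D_{v, c})` be a family of divisors with strict normal crossings on the `X_c`. Let `Γ` be
a finitely generated subgroup of the multiplicative group of `K`, `r` a natural number, `B` and
`ε > 0` real numbers. There are `δ > 0`, a finite list `P` of families of forms and a constant `C`
such that
`h_{K_(X_c)}(x) + ∑_(v ∈ T) λ_{D_{v, c}, v}(x) ≤ ε h(x) + C`
for all parameters `c` in the base and all points `x` of `X_c`, both over `K`, such that the entries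
of `c` have height at most `B H(x) ^ δ`, `x` is a sum of `r` terms with coefficients of height at most
`B H(x) ^ δ`, and `x` does not belong to the exceptional set given by `P` nor to any `D_{v, c}`. -/
theorem result (K : Type) [Field K] [NumberField K] (n s g q w p a b : ℕ) (hn : 1 ≤ n)
    (E : Fin a → MvPolynomial (Fin p) K) (N : Fin b → MvPolynomial (Fin p) K)
    (G : Fin g → Family K p (n + s + 1)) (e : Fin g → ℕ) (hG : ∀ k, (G k).IsHomogeneous (e k))
    (T : Finset (Place K)) (hT : ∀ v : InfinitePlace K, Sum.inl v ∈ T)
    (F : Place K → Fin q → Fin w → Family K p (n + s + 1)) (d : Place K → Fin q → ℕ)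
    (hF : ∀ v ∈ T, ∀ i j, (F v i j).IsHomogeneous (d v i))
    (hsm : ∀ v ∈ T, SmoothFamily s E N G (F v))
    (Γ : Subgroup Kˣ) (hΓ : Γ.FG) (r : ℕ) (B ε : ℝ) (hε : 0 < ε) :
    ∃ (l : ℕ) (P : Fin l → Family K p (n + 1)) (k : Fin l → ℕ) (δ C : ℝ),
      (∀ i, (P i).IsHomogeneous (k i)) ∧ 0 < δ ∧
      ∀ (c : Fin p → K) (x : Fin (n + s + 1) → K), InBase E N c → x ≠ 0 →
        (∀ k, aeval x (member c (G k)) = 0) → ¬ Exceptional P c x →
        (∀ v ∈ T, ∀ i, ∃ j, aeval x (member c (F v i j)) ≠ 0) →
        (∀ j, mulHeight₁ (c j) ≤ B * mulHeight x ^ δ) →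
        IsShortPoint Γ r (B * mulHeight x ^ δ) x →
        ∀ A : Matrix (Fin (n + s + 1)) (Fin (n + 1)) K,
          IsTangentBasis (fun k => member c (G k)) x A →
          canonicalHeight x A + proximity T (fun v i j => member c (F v i j)) d x ≤
            ε * logHeight x + C := by
  classical
  obtain ⟨l, P, k, δ, C, hP, hδ, hmain⟩ := Pool.Agent.Run7.h720.var_prox K Γ hΓ T hT hn E N G F
    (fun v hv => Pool.Agent.Run7.h720.SmFam_of s E N G (F v) fun L _ _ c z h1 h2 h3 h4 =>
      hsm v hv L c z ⟨h1, h2⟩ h3 h4) (by omega) e hG d hF r B ε hε
  refine ⟨l, P, k, δ, C, hP, hδ, ?_⟩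
  intro c x hc hx0 hxG hex hxF hcB hsx A hA
  have key := hmain c x A hx0 hc.1 hc.2 hcB hxG (by
    unfold Exceptional at hex
    push Not at hex
    exact hex) hxF hsx hA.1 hA.2
  rw [proximity_eq T _ d x hx0 hxF]
  exact key

end Pool.Agent.Results.MP_9b9442_nt.SparsePointsOfFamilies
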